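import Pool.Agent.Helper81.PHU.One
import Pool.Agent.Helper45.PHU.Feat
import Pool.Agent.Helper23.PHU.Area
import Pool.Agent.Helper7.PHU.C22
import Pool.Agent.Helper59.PHU.C12

/-!
# PHU-8: a framed body lies in p-hexagons of area close to `5/4` times its own area
-/

set_option autoImplicit false

open MeasureTheory Set

namespace Pool.Agent.Helper81.PHU

open Pool.Agent.Helper27.PHU Pool.Agent.Helper37.PH Pool.Agent.Helper61.PH
open Pool.Agent.Helper83.PHU Pool.Agent.Helper85.PHU Pool.Agent.Helper45.PHU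
open Pool.Agent.Helper23.PHU Pool.Agent.Helper7.PHU Pool.Agent.Helper59.PHU

/-- one roof line: the numbers -/
theorem num_one {a c lam rho f z2 w z1 D : ℝ} (ha0 : 0 ≤ a) (ha : a ≤ 3 / 10)
    (hc : c ≤ 13 / 50) (hl : 0 ≤ lam) (hr : 0 ≤ rho) (hf : 0 ≤ f)
    (hz1 : (1 - c) * f / 2 ≤ z1) (hz2 : 0 ≤ z2) (hw : w = lam + rho)
    (hD : D = z1 + z2 + w / 4) (hD1 : D ≤ 1 / 20) :
    (1 + lam + rho) / 2 + a * ((1 + lam) ^ 2 - rho ^ 2) / (2 * (1 - c))
      + (1 + lam + rho) * f + (1 / 2 - a) / 2 + 3 * z2 ≤ 5 / 4 * (3 / 4 + D) := by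
  have hc1 : 0 < 1 - c := by linarith
  have hw0 : 0 ≤ w := by rw [hw]; positivity
  -- `f ≤ (100/37) z1`
  have hf1 : f ≤ 100 / 37 * z1 := by nlinarith
  have hz10 : 0 ≤ z1 := by nlinarith
  have h1 : (1 + lam) ^ 2 - rho ^ 2 ≤ (1 + w) ^ 2 := by
    rw [hw]
    nlinarith [mul_nonneg hl hr]
  have h2 : a * ((1 + lam) ^ 2 - rho ^ 2) / (2 * (1 - c)) ≤ a * (1 + w) ^ 2 * (25 / 37) := by
    rw [div_le_iff₀ (by linarith)]
    have h3 : a * ((1 + lam) ^ 2 - rho ^ 2) ≤ a * (1 + w) ^ 2 :=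
      mul_le_mul_of_nonneg_left h1 ha0
    have h4 : 0 ≤ a * (1 + w) ^ 2 := by positivity
    nlinarith
  have h5 : (1 + lam + rho) * f ≤ (1 + w) * (100 / 37 * z1) := by
    rw [hw, add_assoc]
    exact mul_le_mul_of_nonneg_left hf1 (by linarith)
  have hw5 : w ≤ 1 / 5 := by linarith
  have h6 : a * ((1 + w) ^ 2 * (25 / 37) - 1 / 2) ≤ 3 / 10 * ((1 + w) ^ 2 * (25 / 37) - 1 / 2) := by
    apply mul_le_mul_of_nonneg_right ha
    nlinarith
  have h7 : 1 / 2 + w / 2 + 3 / 10 * ((1 + w) ^ 2 * (25 / 37) - 1 / 2)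
      + (1 + w) * (100 / 37 * z1) + 1 / 4 + 3 * z2 ≤ 5 / 4 * (3 / 4 + D) := by
    have hz2' : z2 = D - z1 - w / 4 := by linarith
    have h8 : 0 ≤ (D - z1 - w / 4) := by linarith
    rw [hz2']
    nlinarith [mul_nonneg hw0 hz10, mul_nonneg hw0 h8, mul_nonneg hw0 (sub_nonneg.2 hw5),
      mul_nonneg hw0 (sub_nonneg.2 hD1)]
  have h9 : (1 + lam + rho) / 2 = 1 / 2 + w / 2 := by rw [hw]; ring
  nlinarith

/-- two roof lines and two floor lines: the numbers -/
theorem num_two {c e f g z lam rho w : ℝ} (hc0 : 13 / 50 ≤ c) (hc1 : c ≤ 37 / 50)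
    (he : 0 ≤ e) (hf : 0 ≤ f) (hl : 0 ≤ lam) (hr : 0 ≤ rho) (hw : w = lam + rho)
    (hz : z = c * e / 2 + (1 - c) * f / 2) (hg : g = max e f) :
    (1 + w) * g / 2 + ((c + lam) * e / 2 + (1 - c + rho) * f / 2) ≤
      z * (1 + 50 / 13 * (1 + 2 * w)) := by
  have he1 : e ≤ 100 / 13 * z := by rw [hz]; nlinarith
  have hf1 : f ≤ 100 / 13 * z := by rw [hz]; nlinarith
  have hg1 : g ≤ 100 / 13 * z := by rw [hg]; exact max_le he1 hf1
  have hw0 : 0 ≤ w := by rw [hw]; positivity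
  have h1 : (1 + w) * g ≤ (1 + w) * (100 / 13 * z) :=
    mul_le_mul_of_nonneg_left hg1 (by linarith)
  have h2 : lam * e ≤ lam * (100 / 13 * z) := mul_le_mul_of_nonneg_left he1 hl
  have h3 : rho * f ≤ rho * (100 / 13 * z) := mul_le_mul_of_nonneg_left hf1 hr
  have h4 : (c + lam) * e / 2 + (1 - c + rho) * f / 2 = z + (lam * e + rho * f) / 2 := by
    rw [hz]; ring
  rw [h4]
  have h5 : lam * (100 / 13 * z) + rho * (100 / 13 * z) = w * (100 / 13 * z) := by
    rw [hw]; ring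
  linarith

/-- one roof line, peak on the left -/
theorem fin_one {K : Set (ℝ × ℝ)} {b c1 c2 r1 r2 l1 l2 : ℝ}
    (h : Frame K b c1 c2 r1 r2 l1 l2) (hb : 1 / 2 - b ≤ 3 / 10) (hc : c1 ≤ 13 / 50) :
    Cov K (5 / 4 * (volume K).toReal) := by
  rcases le_total (4 / 5) (volume K).toReal with hV | hV
  · exact cov_mono (frame_one h) subset_rfl (by linarith)
  obtain ⟨lam, rho, e1, f1, e2, f2, hf⟩ := exists_feat h
  have hA := area_ge h hf
  have hlam := hf.lam0
  have hrho := hf.rho0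
  have he1 := hf.e10
  have hf1 := hf.f10
  have he2 := hf.e20
  have hf2 := hf.f20
  have hc10 := h.c10
  have hc11 := h.c11
  have hc20 := h.c20
  have hc21 := h.c21
  have p1 : 0 ≤ c1 * e1 / 2 := by positivity
  have p3 : 0 ≤ c2 * e2 / 2 := by positivity
  have p4 : 0 ≤ (1 - c2) * f2 / 2 := by
    have := sub_nonneg.2 hc21.le
    positivity
  have hn := num_one (a := 1 / 2 - b) (c := c1) (lam := lam) (rho := rho) (f := f1)
    (z2 := c2 * e2 / 2 + (1 - c2) * f2 / 2) (w := lam + rho)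
    (z1 := c1 * e1 / 2 + (1 - c1) * f1 / 2)
    (D := (c1 * e1 / 2 + (1 - c1) * f1 / 2) + (c2 * e2 / 2 + (1 - c2) * f2 / 2)
      + (lam + rho) / 4) (by linarith [h.b1]) hb hc hlam hrho hf1 (by linarith) (by linarith)
    rfl rfl (by linarith)
  refine cov_mono (cov12a h hf) subset_rfl ?_
  linarith

/-- one roof line, peak on the right -/
theorem fin_one' {K : Set (ℝ × ℝ)} {b c1 c2 r1 r2 l1 l2 : ℝ}
    (h : Frame K b c1 c2 r1 r2 l1 l2) (hb : 1 / 2 - b ≤ 3 / 10) (hc : 37 / 50 ≤ c1) :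
    Cov K (5 / 4 * (volume K).toReal) := by
  apply Cov_flipX
  rw [← volume_flipX K]
  exact fin_one (frame_flipX h) hb (by linarith)

/-- flat roof -/
theorem fin_flat {K : Set (ℝ × ℝ)} {b c1 c2 r1 r2 l1 l2 : ℝ}
    (h : Frame K b c1 c2 r1 r2 l1 l2) (hb : 3 / 10 ≤ b) :
    Cov K (5 / 4 * (volume K).toReal) := by
  rcases le_total (4 / 5) (volume K).toReal with hV | hV
  · exact cov_mono (frame_one h) subset_rfl (by linarith)
  obtain ⟨lam, rho, e1, f1, e2, f2, hf⟩ := exists_feat h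
  have hA := area_ge h hf
  have hlam := hf.lam0
  have hrho := hf.rho0
  have he1 := hf.e10
  have hf1 := hf.f10
  have he2 := hf.e20
  have hf2 := hf.f20
  have hc10 := h.c10
  have hc11 := h.c11
  have hc20 := h.c20
  have hc21 := h.c21
  have p1 : 0 ≤ c1 * e1 / 2 := by positivity
  have p2 : 0 ≤ (1 - c1) * f1 / 2 := by
    have := sub_nonneg.2 hc11.le
    positivity
  have p3 : 0 ≤ c2 * e2 / 2 := by positivity
  have p4 : 0 ≤ (1 - c2) * f2 / 2 := by
    have := sub_nonneg.2 hc21.le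
    positivity
  refine cov_mono (cov12h h hf) subset_rfl ?_
  have h1 : (1 / 2 - b) * (lam + rho) ≤ 1 / 5 * (lam + rho) :=
    mul_le_mul_of_nonneg_right (by linarith) (by linarith)
  nlinarith

/-- two roof lines and two floor lines -/
theorem fin_two {K : Set (ℝ × ℝ)} {b c1 c2 r1 r2 l1 l2 : ℝ}
    (h : Frame K b c1 c2 r1 r2 l1 l2) (h10 : 13 / 50 ≤ c1) (h11 : c1 ≤ 37 / 50)
    (h20 : 13 / 50 ≤ c2) (h21 : c2 ≤ 37 / 50) :
    Cov K (5 / 4 * (volume K).toReal) := by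
  rcases le_total (4 / 5) (volume K).toReal with hV | hV
  · exact cov_mono (frame_one h) subset_rfl (by linarith)
  obtain ⟨lam, rho, e1, f1, e2, f2, hf⟩ := exists_feat h
  have hA := area_ge h hf
  have hlam := hf.lam0
  have hrho := hf.rho0
  have he1 := hf.e10
  have hf1 := hf.f10
  have he2 := hf.e20
  have hf2 := hf.f20
  have n1 := num_two h10 h11 he1 hf1 hlam hrho rfl rfl rfl
  have n2 := num_two h20 h21 he2 hf2 hlam hrho rfl rfl rfl
  have hz1 : 0 ≤ c1 * e1 / 2 + (1 - c1) * f1 / 2 := by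
    have := sub_nonneg.2 h.c11.le
    have := h.c10
    positivity
  have hz2 : 0 ≤ c2 * e2 / 2 + (1 - c2) * f2 / 2 := by
    have := sub_nonneg.2 h.c21.le
    have := h.c20
    positivity
  refine cov_mono (cov22 h hf) subset_rfl ?_
  generalize c1 * e1 / 2 + (1 - c1) * f1 / 2 = z1 at *
  generalize c2 * e2 / 2 + (1 - c2) * f2 / 2 = z2 at *
  have hw : 0 ≤ lam + rho := by linarith
  have key : 3 / 4 * (lam + rho) + (z1 + z2) * (1 + 50 / 13 * (1 + 2 * (lam + rho))) ≤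
      3 / 16 + 5 / 4 * (z1 + z2 + (lam + rho) / 4) := by
    have hD : z1 + z2 + (lam + rho) / 4 ≤ 1 / 20 := by linarith
    generalize lam + rho = w at *
    have hz : 0 ≤ z1 + z2 := by linarith
    generalize z1 + z2 = z at *
    nlinarith [mul_nonneg hw hz, mul_nonneg hz (sub_nonneg.2 hD), mul_nonneg hw (sub_nonneg.2 hD)]
  linarith

/-- the frame with `b ≥ 1/4` -/
theorem fin_core {K : Set (ℝ × ℝ)} {b c1 c2 r1 r2 l1 l2 : ℝ}
    (h : Frame K b c1 c2 r1 r2 l1 l2) (hb : 1 / 4 ≤ b) :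
    Cov K (5 / 4 * (volume K).toReal) := by
  rcases le_total c1 (13 / 50) with h1 | h1
  · exact fin_one h (by linarith) h1
  rcases le_total (37 / 50) c1 with h2 | h2
  · exact fin_one' h (by linarith) h2
  rcases le_total (3 / 10) b with h3 | h3
  · exact fin_flat h h3
  rcases le_total c2 (13 / 50) with h4 | h4
  · apply Cov_flipY
    rw [← volume_flipY K]
    exact fin_one (frame_flipY h) (by linarith) h4
  rcases le_total (37 / 50) c2 with h5 | h5
  · apply Cov_flipY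
    rw [← volume_flipY K]
    exact fin_one' (frame_flipY h) (by linarith) h5
  exact fin_two h h1 h2 h4 h5

/-- PHU-8. A framed body lies in p-hexagons of area close to `5/4` times its own area. -/
theorem frame_final {K : Set (ℝ × ℝ)} {b c1 c2 r1 r2 l1 l2 : ℝ}
    (h : Frame K b c1 c2 r1 r2 l1 l2) : Cov K (5 / 4 * (volume K).toReal) := by
  rcases le_total (1 / 4) b with hb | hb
  · exact fin_core h hb
  · apply Cov_flipY
    rw [← volume_flipY K]
    exact fin_core (frame_flipY h) (by linarith)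

end Pool.Agent.Helper81.PHU
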