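import Pool.Agent.Helper27.PHU.Defs
import Pool.Agent.Helper83.PHU.Tools
import Pool.Agent.Helper85.PHU.Gab

/-!
# PHU-3: the hexagon of area 1 around a framed body
-/

set_option autoImplicit false

open MeasureTheory Set

namespace Pool.Agent.Helper81.PHU

open Pool.Agent.Helper27.PHU Pool.Agent.Helper37.PH Pool.Agent.Helper61.PH
open Pool.Agent.Helper83.PHU Pool.Agent.Helper85.PHU

/-- PHU-3. Kuperberg's hexagon: every framed body lies in p-hexagons of area close to `1`. -/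
theorem frame_one {K : Set (ℝ × ℝ)} {b c1 c2 r1 r2 l1 l2 : ℝ}
    (h : Frame K b c1 c2 r1 r2 l1 l2) : Cov K 1 := by
  have hb0 := h.b0
  have hb1 := h.b1
  have e1 := h.R1 _ h.mC
  have e2 := h.R2 _ h.mD
  have e3 := h.L1 _ h.mB
  have e4 := h.L2 _ h.mA
  have e5 := h.R1 _ h.mU
  have e6 := h.L1 _ h.mU
  have e7 := h.bal
  simp only at e1 e2 e3 e4 e5 e6
  have hr1 : 0 ≤ r1 := by nlinarith
  have hr2 : 0 ≤ r2 := by nlinarith
  have hl1 : 0 ≤ l1 := by nlinarith
  have hl2 : 0 ≤ l2 := by nlinarith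
  have p1 := mul_nonneg hr1 hb0.le
  have p2 := mul_nonneg hr2 hb0.le
  have p3 := mul_nonneg hl1 hb0.le
  have p4 := mul_nonneg hl2 hb0.le
  have q1 := mul_nonneg hr1 (sub_nonneg.2 hb1.le)
  have q2 := mul_nonneg hr2 (sub_nonneg.2 hb1.le)
  have q3 := mul_nonneg hl1 (sub_nonneg.2 hb1.le)
  have q4 := mul_nonneg hl2 (sub_nonneg.2 hb1.le)
  apply Cov_swap
  refine cov_gable (X0 := 0) (X1 := 1) (a1 := 1 - r1 * b) (b1 := r1) (a2 := 1 + r2 * (b + 1 / 2))
    (b2 := -r2) (c1 := l1 * b) (d1 := -l1) (c2 := -l2 * (b + 1 / 2)) (d2 := l2) (p := 2 * b)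
    (q := 2 * b) one_pos ?_ ?_ ?_ ?_ ?_ ?_ ?_ ?_ ?_ ?_ ?_ ?_
  · rintro z ⟨q, hq, rfl⟩
    have f1 := h.R1 q hq
    have f2 := h.R2 q hq
    have f3 := h.L1 q hq
    have f4 := h.L2 q hq
    refine ⟨h.bot q hq, h.top q hq, ?_, ?_, ?_, ?_⟩
    · simp only [Prod.fst_swap, Prod.snd_swap]; linarith
    · simp only [Prod.fst_swap, Prod.snd_swap]; linarith
    · simp only [Prod.fst_swap, Prod.snd_swap]; linarith
    · simp only [Prod.fst_swap, Prod.snd_swap]; linarith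
  · linarith
  · linarith
  · linarith
  · linarith
  · linarith
  · linarith
  · linarith
  · linarith
  · linarith
  · linarith
  · apply le_of_eq
    ring

end Pool.Agent.Helper81.PHU
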